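import Pool.Agent.H30.CPJ.Conv

/-!
# Bodies whose central projections from antipodal points have equal widths are centrally symmetric
-/

set_option autoImplicit false

open Metric

namespace Pool.Agent.Results.MP_39a3b1_gt.CentralSymmetry

open Pool.H30.CPJ

/-- Let `E` be a Euclidean space of dimension `n ≥ 3` and `K` a convex body in the open unit ball.
If for every unit vector `x` the central projections of `K` from `x` and `-x` are translates of each
other, or point reflections of each other, or have the same width in every direction of `x^⊥`, then
`K = -K`. -/
theorem result {E : Type} [NormedAddCommGroup E] [InnerProductSpace ℝ E] [FiniteDimensional ℝ E]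
    (hn : 3 ≤ Module.finrank ℝ E) (K : Set E) (hconv : Convex ℝ K) (hcpt : IsCompact K)
    (hint : (interior K).Nonempty) (hsub : K ⊆ ball 0 1)
    (h : ∀ x : E, ‖x‖ = 1 →
      (∃ v : E, centralProj K (-x) = (fun z => z + v) '' centralProj K x) ∨
      (∃ v : E, centralProj K (-x) = (fun z => v - z) '' centralProj K x) ∨
      (∀ w : E, ‖w‖ = 1 → inner ℝ w x = 0 →
        width (centralProj K x) w = width (centralProj K (-x)) w)) :
    ∀ y : E, y ∈ K ↔ -y ∈ K :=
  symmetric hn K hconv hcpt hint hsub h

end Pool.Agent.Results.MP_39a3b1_gt.CentralSymmetry
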