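import Pool.Agent.H30.CPJ.Conv

/-!
# A plane convex body without a centre whose central projections from antipodal points are translates
-/

set_option autoImplicit false

open Metric MeasureTheory

namespace Pool.Agent.Results.MP_39a3b1_gt.NoCentre

open Pool.H30.CPJ

/-- In the Euclidean plane `E` there is a convex body `K` in the open unit disc whose central
projections from `x` and `-x` are translates of each other within `x^⊥`, and have the same length,
for every unit vector `x`, and which has no centre of symmetry. -/
theorem result {E : Type} [NormedAddCommGroup E] [InnerProductSpace ℝ E] [MeasurableSpace E]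
    [BorelSpace E] (hn : Module.finrank ℝ E = 2) :
    ∃ K : Set E, Convex ℝ K ∧ IsCompact K ∧ (interior K).Nonempty ∧ K ⊆ ball 0 1 ∧
      (∀ x : E, ‖x‖ = 1 →
        (∃ v : E, inner ℝ v x = 0 ∧ centralProj K (-x) = (fun z => z + v) '' centralProj K x) ∧
        μH[1] (centralProj K (-x)) = μH[1] (centralProj K x)) ∧
      ¬ ∃ c : E, ∀ y : E, y ∈ K ↔ (2 : ℝ) • c - y ∈ K :=
  noCentre hn

end Pool.Agent.Results.MP_39a3b1_gt.NoCentre
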