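import Pool.Agent.H30.CPJ.Conv

/-!
# Ellipsoids have translated central projections from antipodal points
-/

set_option autoImplicit false

open Metric

namespace Pool.Agent.Results.MP_39a3b1_gt.NotBall

open Pool.H30.CPJ

/-- In every dimension `n ≥ 2`, every origin-centred ellipsoid in the open unit ball satisfies
the hypothesis in its strong (translation) form, and some such body is not a ball. -/
theorem result {E : Type} [NormedAddCommGroup E] [InnerProductSpace ℝ E] [FiniteDimensional ℝ E]
    (hn : 2 ≤ Module.finrank ℝ E) :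
    (∀ T : E ≃L[ℝ] E, T '' closedBall 0 1 ⊆ ball 0 1 → ∀ x : E, ‖x‖ = 1 →
      ∃ v : E, inner ℝ v x = 0 ∧ centralProj (T '' closedBall 0 1) (-x) =
        (fun z => z + v) '' centralProj (T '' closedBall 0 1) x) ∧
    ∃ K : Set E, Convex ℝ K ∧ IsCompact K ∧ (interior K).Nonempty ∧ K ⊆ ball 0 1 ∧
      (∀ x : E, ‖x‖ = 1 → ∃ v : E, inner ℝ v x = 0 ∧
        centralProj K (-x) = (fun z => z + v) '' centralProj K x) ∧
      ¬ ∃ (c : E) (r : ℝ), K = closedBall c r :=
  notBall hn

end Pool.Agent.Results.MP_39a3b1_gt.NotBall
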